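import Pool.Agent.W2helper94.CY.Defs

set_option autoImplicit false

/-!
# Project CY, piece C: no zeros of large order
-/

namespace Pool.Agent.W4helper65.CY

open Polynomial Finset Pool.Agent.W2helper94.CY

theorem transfer {A B C D : ℝ} (h : C + D = A + B) (hB : 0 ≤ B) (h1 : B ≤ C) (h2 : B ≤ D)
    (hA : A ≤ Real.pi) : Real.sin A + Real.sin B ≤ Real.sin C + Real.sin D := by
  have e1 : Real.sin A + Real.sin B = 2 * Real.sin ((A + B) / 2) * Real.cos ((A - B) / 2) := by
    rw [Real.sin_add_sin]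
  have e2 : Real.sin C + Real.sin D = 2 * Real.sin ((A + B) / 2) * Real.cos ((C - D) / 2) := by
    rw [Real.sin_add_sin, h]
  have hp := Real.pi_pos
  have hs : 0 ≤ Real.sin ((A + B) / 2) :=
    Real.sin_nonneg_of_nonneg_of_le_pi (by linarith) (by linarith)
  have hc : Real.cos ((A - B) / 2) ≤ Real.cos ((C - D) / 2) := by
    rw [← Real.cos_abs ((C - D) / 2)]
    refine Real.cos_le_cos_of_nonneg_of_le_pi (abs_nonneg _) (by linarith) ?_
    rw [abs_le]
    constructor <;> linarith
  rw [e1, e2]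
  exact mul_le_mul_of_nonneg_left hc (by linarith)

theorem transfer_lt {A B C D : ℝ} (h : C + D = A + B) (hB : 0 ≤ B) (h1 : B < C) (h2 : B < D)
    (hA : A ≤ Real.pi) : Real.sin A + Real.sin B < Real.sin C + Real.sin D := by
  have e1 : Real.sin A + Real.sin B = 2 * Real.sin ((A + B) / 2) * Real.cos ((A - B) / 2) := by
    rw [Real.sin_add_sin]
  have e2 : Real.sin C + Real.sin D = 2 * Real.sin ((A + B) / 2) * Real.cos ((C - D) / 2) := by
    rw [Real.sin_add_sin, h]
  have hp := Real.pi_pos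
  have hs : 0 < Real.sin ((A + B) / 2) :=
    Real.sin_pos_of_pos_of_lt_pi (by linarith) (by linarith)
  have hc : Real.cos ((A - B) / 2) < Real.cos ((C - D) / 2) := by
    rw [← Real.cos_abs ((C - D) / 2)]
    refine Real.cos_lt_cos_of_nonneg_of_le_pi (abs_nonneg _) (by linarith) ?_
    rw [abs_lt]
    constructor <;> linarith
  rw [e1, e2]
  exact mul_lt_mul_of_pos_left hc (by linarith)

theorem sub_add {a b : ℝ} (ha : 0 ≤ a) (hb : 0 ≤ b) (h : a + b ≤ Real.pi) :
    Real.sin (a + b) ≤ Real.sin a + Real.sin b := by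
  have := transfer (A := a + b) (B := 0) (C := a) (D := b) (by ring) le_rfl ha hb h
  rwa [Real.sin_zero, add_zero] at this

theorem sines (T y1 y2 y3 y4 y5 : ℝ) (hT : T ≤ Real.pi) (h12 : y2 ≤ y1) (h23 : y3 ≤ y2)
    (h34 : y4 ≤ y3) (h45 : y5 ≤ y4) (h1 : y1 < T) (h35 : 0 < y3 + y5)
    (hs : y1 + y2 + y3 + y4 + y5 = T) :
    Real.sin T < Real.sin y1 + Real.sin y2 + Real.sin y3 + Real.sin y4 + Real.sin y5 := by
  have h3 : 0 < y3 := by linarith
  rcases le_or_gt 0 y5 with h5 | h5
  · have k1 := transfer_lt (A := T) (B := 0) (C := y1) (D := T - y1) (by ring) le_rfl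
      (by linarith) (by linarith) hT
    rw [Real.sin_zero, add_zero] at k1
    have e : T - y1 = y2 + (y3 + (y4 + y5)) := by linarith
    have k2 := sub_add (a := y2) (b := y3 + (y4 + y5)) (by linarith) (by linarith) (by linarith)
    have k3 := sub_add (a := y3) (b := y4 + y5) (by linarith) (by linarith) (by linarith)
    have k4 := sub_add (a := y4) (b := y5) (by linarith) (by linarith) (by linarith)
    rw [e] at k1
    linarith
  · have n5 : Real.sin y5 = -Real.sin (-y5) := by rw [Real.sin_neg]; ring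
    rcases le_or_gt 0 y4 with h4 | h4
    · have k1 := transfer_lt (A := T) (B := -y5) (C := y3) (D := y1 + (y2 + y4)) (by linarith)
        (by linarith) (by linarith) (by linarith) hT
      have k2 := sub_add (a := y1) (b := y2 + y4) (by linarith) (by linarith) (by linarith)
      have k3 := sub_add (a := y2) (b := y4) (by linarith) (by linarith) (by linarith)
      linarith
    · have n4 : Real.sin y4 = -Real.sin (-y4) := by rw [Real.sin_neg]; ring
      have k1 := transfer_lt (A := T) (B := -y5) (C := y3) (D := y1 + y2 + y4) (by linarith)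
        (by linarith) (by linarith) (by linarith) hT
      have k2 := transfer (A := y1 + y2 + y4) (B := -y4) (C := y1) (D := y2) (by ring)
        (by linarith) (by linarith) (by linarith) (by linarith)
      linarith

theorem no_large_order (m1 m2 m3 m4 m5 c : ℕ) (h0 : 0 < m1) (h12 : m1 ≤ m2) (h23 : m2 ≤ m3)
    (h34 : m3 ≤ m4) (h45 : m4 ≤ m5) (h35 : m3 + m5 < c) (h25 : m5 < c)
    (hs : m1 + m2 + m3 + m4 + m5 = 2 * c) (n : ℕ) (hn : c ≤ n) :
    ¬ cyclotomic n ℤ ∣ numer5 m1 m2 m3 m4 m5 c := by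
  intro hdvd
  have hn0 : n ≠ 0 := by omega
  have hprim := Complex.isPrimitiveRoot_exp n hn0
  set ζ : ℂ := Complex.exp (2 * Real.pi * Complex.I / n) with hζ
  have hroot : aeval ζ (numer5 m1 m2 m3 m4 m5 c) = 0 := by
    obtain ⟨q, hq⟩ := hdvd
    have h1 : aeval ζ (cyclotomic n ℤ) = 0 := by
      have := hprim.isRoot_cyclotomic (Nat.pos_of_ne_zero hn0)
      rw [IsRoot.def, ← map_cyclotomic n (algebraMap ℤ ℂ), eval_map_algebraMap] at this
      exact this
    rw [hq, map_mul, h1, zero_mul]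
  have hnpos : (0 : ℝ) < n := by
    have : 0 < n := Nat.pos_of_ne_zero hn0
    exact_mod_cast this
  set t : ℝ := 2 * Real.pi / n with ht
  set T : ℝ := c * t / 2 with hT
  have hpi := Real.pi_pos
  have ht0 : 0 < t := by positivity
  have hTpi : T ≤ Real.pi := by
    have h1 : (c : ℝ) ≤ n := by exact_mod_cast hn
    rw [hT, ht]
    rw [div_le_iff₀ two_pos, mul_div_assoc', div_le_iff₀ hnpos]
    nlinarith
  have hpow : ∀ k : ℕ, ζ ^ k * Complex.exp (((-T : ℝ) : ℂ) * Complex.I) =
      Complex.exp (((k * t - T : ℝ) : ℂ) * Complex.I) := by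
    intro k
    rw [hζ, ← Complex.exp_nat_mul, ← Complex.exp_add]
    congr 1
    rw [ht]
    push_cast
    ring
  have him : ∀ k : ℕ, (ζ ^ k * Complex.exp (((-T : ℝ) : ℂ) * Complex.I)).im =
      Real.sin (k * t - T) := by
    intro k
    rw [hpow, Complex.exp_ofReal_mul_I_im]
  have e0 : aeval ζ (numer5 m1 m2 m3 m4 m5 c) * Complex.exp (((-T : ℝ) : ℂ) * Complex.I) =
      ζ ^ 0 * Complex.exp (((-T : ℝ) : ℂ) * Complex.I) -
      (ζ ^ m1 * Complex.exp (((-T : ℝ) : ℂ) * Complex.I) +
        ζ ^ m2 * Complex.exp (((-T : ℝ) : ℂ) * Complex.I) +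
        ζ ^ m3 * Complex.exp (((-T : ℝ) : ℂ) * Complex.I) +
        ζ ^ m4 * Complex.exp (((-T : ℝ) : ℂ) * Complex.I) +
        ζ ^ m5 * Complex.exp (((-T : ℝ) : ℂ) * Complex.I)) +
      (ζ ^ (c - m1) * Complex.exp (((-T : ℝ) : ℂ) * Complex.I) +
        ζ ^ (c - m2) * Complex.exp (((-T : ℝ) : ℂ) * Complex.I) +
        ζ ^ (c - m3) * Complex.exp (((-T : ℝ) : ℂ) * Complex.I) +
        ζ ^ (c - m4) * Complex.exp (((-T : ℝ) : ℂ) * Complex.I) +
        ζ ^ (c - m5) * Complex.exp (((-T : ℝ) : ℂ) * Complex.I)) -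
      ζ ^ c * Complex.exp (((-T : ℝ) : ℂ) * Complex.I) := by
    simp only [numer5, map_sub, map_add, map_one, map_pow, aeval_X, pow_zero]
    ring
  rw [hroot, zero_mul] at e0
  have e1 := congrArg Complex.im e0
  simp only [Complex.sub_im, Complex.add_im, him, Complex.zero_im] at e1
  have key : ∀ m : ℕ, m ≤ c → Real.sin (m * t - T) = -Real.sin (T - m * t) ∧
      Real.sin (((c - m : ℕ) : ℝ) * t - T) = Real.sin (T - m * t) := by
    intro m hm
    constructor
    · rw [← Real.sin_neg]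
      congr 1
      ring
    · congr 1
      rw [Nat.cast_sub hm, hT]
      ring
  have c1 := key m1 (by omega)
  have c2 := key m2 (by omega)
  have c3 := key m3 (by omega)
  have c4 := key m4 (by omega)
  have c5 := key m5 (by omega)
  rw [c1.1, c1.2, c2.1, c2.2, c3.1, c3.2, c4.1, c4.2, c5.1, c5.2] at e1
  have e2 : Real.sin (((0 : ℕ) : ℝ) * t - T) = -Real.sin T := by
    rw [← Real.sin_neg]
    congr 1
    push_cast
    ring
  have e3 : Real.sin ((c : ℝ) * t - T) = Real.sin T := by
    congr 1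
    rw [hT]
    ring
  rw [e2, e3] at e1
  have hsR : (m1 : ℝ) + m2 + m3 + m4 + m5 = 2 * c := by exact_mod_cast hs
  have mono : ∀ a b : ℕ, a ≤ b → T - b * t ≤ T - a * t := by
    intro a b hab
    have : (a : ℝ) ≤ b := by exact_mod_cast hab
    nlinarith
  have h := sines T (T - m1 * t) (T - m2 * t) (T - m3 * t) (T - m4 * t) (T - m5 * t) hTpi
    (mono _ _ h12) (mono _ _ h23) (mono _ _ h34) (mono _ _ h45) ?_ ?_ ?_
  · linarith
  · have : (0 : ℝ) < m1 := by exact_mod_cast h0
    nlinarith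
  · have : (m3 : ℝ) + m5 < c := by exact_mod_cast h35
    rw [hT]
    nlinarith
  · rw [hT]
    linear_combination (-t) * hsR

end Pool.Agent.W4helper65.CY
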